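import Mathlib

set_option autoImplicit false

open Cardinal Set Filter

namespace Pool.Agent.Results.MP_2712b7_lc.PolarizedAtD

/-- A family `F` of functions `ω → ω` is dominating: every `g` satisfies `g ≤* f` for some `f ∈ F`. -/
def IsDominating (F : Set (ℕ → ℕ)) : Prop :=
  ∀ g : ℕ → ℕ, ∃ f ∈ F, ∀ᶠ n in atTop, g n ≤ f n

/-- The dominating number `𝔡`: the least cardinality of a dominating family. -/
noncomputable def dNum : Cardinal.{0} :=
  sInf {κ : Cardinal.{0} | ∃ F : Set (ℕ → ℕ), IsDominating F ∧ #F = κ}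

/-- `B` is a base of the ultrafilter `U`: `B ⊆ U` and every member of `U` contains a member
of `B`. -/
def IsBase (U : Ultrafilter ℕ) (B : Set (Set ℕ)) : Prop :=
  (∀ b ∈ B, b ∈ U) ∧ ∀ X ∈ U, ∃ b ∈ B, b ⊆ X

/-- The ultrafilter number `𝔲`: the least cardinality of a base of a nonprincipal ultrafilter
on `ω` (nonprincipal: no singleton is a member). -/
noncomputable def uNum : Cardinal.{0} :=
  sInf {κ : Cardinal.{0} | ∃ (U : Ultrafilter ℕ) (B : Set (Set ℕ)),
    (∀ n : ℕ, ({n} : Set ℕ) ∉ U) ∧ IsBase U B ∧ #B = κ}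

/-- The strong polarized relation `(κ, ω) → (κ, ω)^{1,1}_2`. -/
def StrongPolarized (κ : Cardinal.{0}) : Prop :=
  ∀ c : κ.ord.ToType → ℕ → Fin 2, ∃ (A : Set κ.ord.ToType) (B : Set ℕ) (i : Fin 2),
    #A = κ ∧ B.Infinite ∧ ∀ a ∈ A, ∀ n ∈ B, c a n = i

/-! ### Elementary facts -/

theorem exists_dominating : ∃ F : Set (ℕ → ℕ), IsDominating F ∧ #F = dNum := by
  have h : dNum ∈ {κ : Cardinal.{0} | ∃ F : Set (ℕ → ℕ), IsDominating F ∧ #F = κ} := by
    apply csInf_mem
    exact ⟨#(univ : Set (ℕ → ℕ)), univ, fun g => ⟨g, mem_univ _, Eventually.of_forall fun _ => le_rfl⟩,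
      rfl⟩
  exact h

/-- Fewer than `𝔡` functions do not dominate. -/
theorem exists_not_dominated {ι : Type} (hι : #ι < dNum) (h : ι → ℕ → ℕ) :
    ∃ g : ℕ → ℕ, ∀ i, ∃ᶠ n in atTop, h i n < g n := by
  by_contra hcon
  have hdom : IsDominating (range h) := by
    intro g
    by_contra hg
    apply hcon
    refine ⟨g, fun i => ?_⟩
    by_contra hi
    apply hg
    refine ⟨h i, mem_range_self i, ?_⟩
    rw [not_frequently] at hi
    filter_upwards [hi] with n hn
    exact not_lt.mp hn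
  have h1 : dNum ≤ #(range h) := csInf_le' ⟨range h, hdom, rfl⟩
  have h2 : #(range h) ≤ #ι := mk_range_le
  exact absurd hι (not_lt.mpr (h1.trans h2))

/-- `ℵ₀ < 𝔡`. -/
theorem aleph0_lt_dNum : ℵ₀ < dNum := by
  by_contra hcon
  rw [not_lt] at hcon
  obtain ⟨F, hF, hcard⟩ := exists_dominating
  have hc : F.Countable := by
    rw [← le_aleph0_iff_set_countable, hcard]
    exact hcon
  have hne : F.Nonempty := by
    obtain ⟨f, hf, _⟩ := hF (fun _ => 0)
    exact ⟨f, hf⟩
  obtain ⟨e, he⟩ := hc.exists_eq_range hne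
  obtain ⟨f, hf, hfd⟩ := hF (fun n => ∑ i ∈ Finset.range (n + 1), e i n + 1)
  rw [he] at hf
  obtain ⟨i, rfl⟩ := hf
  obtain ⟨N, hN⟩ := eventually_atTop.mp hfd
  have h1 := hN (max N i) (le_max_left _ _)
  have h2 : e i (max N i) ≤ ∑ k ∈ Finset.range (max N i + 1), e k (max N i) :=
    Finset.single_le_sum (f := fun k => e k (max N i)) (fun _ _ => Nat.zero_le _)
      (Finset.mem_range.mpr (by omega))
  omega

/-- For fewer than `𝔡` monotone functions `f i` there is an interval partition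
with endpoints `j 0 = 0 < j 1 < ...` such that for each `i` infinitely many of the intervals
`[j k, j (k+1))` contain an interval `[m, f i m)`. -/
theorem exists_partition {ι : Type} (hι : #ι < dNum) (f : ι → ℕ → ℕ)
    (hmono : ∀ i, Monotone (f i)) :
    ∃ j : ℕ → ℕ, StrictMono j ∧ j 0 = 0 ∧
      ∀ i, {k | ∃ m, j k ≤ m ∧ f i m ≤ j (k + 1)}.Infinite := by
  obtain ⟨g, hg⟩ := exists_not_dominated hι (fun i n => f i (f i n))
  -- make `g` monotone and strictly above the identity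
  let G : ℕ → ℕ := fun n => n + 1 + ∑ i ∈ Finset.range (n + 1), g i
  have hGmono : Monotone G := by
    intro a b hab
    have : ∑ i ∈ Finset.range (a + 1), g i ≤ ∑ i ∈ Finset.range (b + 1), g i :=
      Finset.sum_le_sum_of_subset (Finset.range_mono (by omega))
    simp only [G]
    omega
  have hGgt : ∀ n, n < G n := by
    intro n
    simp only [G]
    omega
  have hGg : ∀ n, g n ≤ G n := by
    intro n
    have : g n ≤ ∑ i ∈ Finset.range (n + 1), g i :=
      Finset.single_le_sum (f := g) (fun _ _ => Nat.zero_le _) (Finset.mem_range.mpr (by omega))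
    simp only [G]
    omega
  let j : ℕ → ℕ := fun k => G^[k] 0
  have hjs : ∀ k, j (k + 1) = G (j k) := fun k => Function.iterate_succ_apply' G k 0
  have hjmono : StrictMono j := strictMono_nat_of_lt_succ fun k => by
    rw [hjs]
    exact hGgt _
  have hj0 : j 0 = 0 := rfl
  refine ⟨j, hjmono, hj0, fun i => ?_⟩
  rw [Set.infinite_iff_exists_gt]
  intro K
  obtain ⟨n, hn1, hn2⟩ := (frequently_atTop.mp (hg i)) (j (K + 1))
  -- the interval containing `n`
  obtain ⟨k, hk1, hk2⟩ : ∃ k, j k ≤ n ∧ n < j (k + 1) := by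
    have hex : ∃ k, n < j k := ⟨n + 1, lt_of_lt_of_le (Nat.lt_succ_self n) (hjmono.le_apply)⟩
    classical
    have hpos : Nat.find hex ≠ 0 := by
      intro h0
      have := Nat.find_spec hex
      rw [h0, hj0] at this
      omega
    obtain ⟨k, hk⟩ := Nat.exists_eq_succ_of_ne_zero hpos
    refine ⟨k, ?_, ?_⟩
    · exact not_lt.mp (Nat.find_min hex (by omega))
    · have := Nat.find_spec hex
      rw [hk] at this
      exact this
  have hKk : K < k := by
    by_contra h
    have : j (k + 1) ≤ j (K + 1) := hjmono.monotone (by omega)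
    omega
  by_cases hcase : f i n ≤ j (k + 1)
  · exact ⟨k, ⟨n, hk1, hcase⟩, hKk⟩
  · refine ⟨k + 1, ⟨j (k + 1), le_rfl, ?_⟩, by omega⟩
    calc f i (j (k + 1)) ≤ f i (f i n) := hmono i (by omega)
      _ ≤ g n := hn2.le
      _ ≤ G n := hGg n
      _ ≤ G (j (k + 1)) := hGmono (by omega)
      _ = j (k + 1 + 1) := (hjs (k + 1)).symm

/-- The least element of `D` which is `≥ n`. -/
noncomputable def nxt (D : Set ℕ) (n : ℕ) : ℕ := sInf {m | m ∈ D ∧ n ≤ m}

theorem nxt_spec {D : Set ℕ} (hD : D.Infinite) (n : ℕ) : nxt D n ∈ D ∧ n ≤ nxt D n := by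
  have h : nxt D n ∈ {m | m ∈ D ∧ n ≤ m} := by
    apply Nat.sInf_mem
    obtain ⟨m, hm, hnm⟩ := hD.exists_gt n
    exact ⟨m, hm, hnm.le⟩
  exact h

theorem nxt_mono {D : Set ℕ} (hD : D.Infinite) : Monotone (nxt D) := by
  intro a b hab
  apply Nat.sInf_le
  exact ⟨(nxt_spec hD b).1, hab.trans (nxt_spec hD b).2⟩

/-- The index of the interval `[j k, j (k+1))` containing `n`. -/
noncomputable def idx (j : ℕ → ℕ) (n : ℕ) : ℕ := sSup {k | j k ≤ n}

theorem idx_eq {j : ℕ → ℕ} (hj : StrictMono j) {n k : ℕ} (h1 : j k ≤ n) (h2 : n < j (k + 1)) :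
    idx j n = k := by
  have hset : {k | j k ≤ n} = Iic k := by
    ext l
    change j l ≤ n ↔ l ≤ k
    constructor
    · intro hl
      by_contra hlk
      have : j (k + 1) ≤ j l := hj.monotone (by omega)
      omega
    · intro hl
      exact (hj.monotone hl).trans h1
  rw [idx, hset]
  exact csSup_Iic

/-! ### Aubrey's argument: if `𝔡 ≤ 𝔲`, then fewer than `𝔡` infinite sets are split by one set -/

theorem exists_splitting (hdu : dNum ≤ uNum) {ι : Type} (hι : #ι < dNum) (D : ι → Set ℕ)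
    (hD : ∀ i, (D i).Infinite) :
    ∃ X : Set ℕ, ∀ i, (D i ∩ X).Infinite ∧ (D i \ X).Infinite := by
  by_contra hcon
  push Not at hcon
  -- index set: finite lists of members of the family
  have hlist : #(List ι) < dNum :=
    lt_of_le_of_lt (mk_list_le_max ι) (max_lt aleph0_lt_dNum hι)
  let h : List ι → ℕ → ℕ := fun L n => n + 1 + (L.map fun i => nxt (D i) n).sum
  have hsum : ∀ (L : List ι) (n : ℕ) (i : ι), i ∈ L →
      nxt (D i) n ≤ (L.map fun i => nxt (D i) n).sum := by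
    intro L n i hi
    exact List.le_sum_of_mem (List.mem_map_of_mem hi)
  have hmono : ∀ L, Monotone (h L) := by
    intro L a b hab
    have : (L.map fun i => nxt (D i) a).sum ≤ (L.map fun i => nxt (D i) b).sum :=
      List.sum_le_sum fun i _ => nxt_mono (hD i) hab
    simp only [h]
    omega
  obtain ⟨j, hj, _hj0, hjinf⟩ := exists_partition hlist h hmono
  -- the collapsed sets
  let b : List ι × ℕ → Set ℕ := fun p => {k | p.2 ≤ k ∧ ∀ i ∈ p.1, k ∈ idx j '' D i}
  have hbne : ∀ p, (b p).Nonempty := by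
    rintro ⟨L, N⟩
    obtain ⟨k, ⟨m, hm1, hm2⟩, hk⟩ := (hjinf L).exists_gt N
    refine ⟨k, hk.le, fun i hi => ⟨nxt (D i) m, (nxt_spec (hD i) m).1, ?_⟩⟩
    apply idx_eq hj
    · exact hm1.trans (nxt_spec (hD i) m).2
    · have := hsum L m i hi
      simp only [h] at hm2
      omega
  have hbinter : ∀ p q, b (p.1 ++ q.1, max p.2 q.2) ⊆ b p ∩ b q := by
    rintro ⟨L, N⟩ ⟨L', N'⟩ k ⟨hk1, hk2⟩
    refine ⟨⟨(le_max_left _ _).trans hk1, fun i hi => hk2 i (List.mem_append_left _ hi)⟩,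
      ⟨(le_max_right _ _).trans hk1, fun i hi => hk2 i (List.mem_append_right _ hi)⟩⟩
  let 𝓕 : Filter ℕ :=
    { sets := {Y | ∃ p, b p ⊆ Y}
      univ_sets := ⟨([], 0), subset_univ _⟩
      sets_of_superset := fun ⟨p, hp⟩ hxy => ⟨p, hp.trans hxy⟩
      inter_sets := fun {x y} hx hy => by
        obtain ⟨p, hp⟩ := hx
        obtain ⟨q, hq⟩ := hy
        exact ⟨_, (hbinter p q).trans (inter_subset_inter hp hq)⟩ }
  have hmem : ∀ Y, Y ∈ 𝓕 ↔ ∃ p, b p ⊆ Y := fun Y => Iff.rfl
  have hultra : ∀ Y : Set ℕ, Y ∈ 𝓕 ∨ Yᶜ ∈ 𝓕 := by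
    intro Y
    obtain ⟨i, hi⟩ := hcon (idx j ⁻¹' Y)
    by_cases hfin : (D i ∩ idx j ⁻¹' Y).Infinite
    · -- `D i \ X` is finite
      left
      have hf : (D i \ idx j ⁻¹' Y).Finite := hi hfin
      obtain ⟨N, hN⟩ := (hf.image (idx j)).bddAbove
      refine (hmem Y).mpr ⟨([i], N + 1), ?_⟩
      rintro k ⟨hk1, hk2⟩
      obtain ⟨m, hm, rfl⟩ := hk2 i (List.mem_singleton_self i)
      by_contra hY
      have := hN (mem_image_of_mem (idx j) (show m ∈ D i \ idx j ⁻¹' Y from ⟨hm, hY⟩))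
      simp only at hk1
      omega
    · right
      rw [Set.not_infinite] at hfin
      obtain ⟨N, hN⟩ := (hfin.image (idx j)).bddAbove
      refine (hmem Yᶜ).mpr ⟨([i], N + 1), ?_⟩
      rintro k ⟨hk1, hk2⟩
      obtain ⟨m, hm, rfl⟩ := hk2 i (List.mem_singleton_self i)
      intro hY
      have := hN (mem_image_of_mem (idx j) (show m ∈ D i ∩ idx j ⁻¹' Y from ⟨hm, hY⟩))
      simp only at hk1
      omega
  have hne : ∅ ∉ 𝓕 := by
    rw [hmem]
    rintro ⟨p, hp⟩
    obtain ⟨k, hk⟩ := hbne p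
    exact hp hk
  let U : Ultrafilter ℕ := Ultrafilter.ofComplNotMemIff 𝓕 (by
    intro s
    constructor
    · intro hs
      rcases hultra s with h | h
      · exact h
      · exact absurd h hs
    · intro hs hs'
      apply hne
      have := 𝓕.inter_sets hs hs'
      rwa [inter_compl_self] at this)
  have hU : ∀ Y, Y ∈ U ↔ ∃ p, b p ⊆ Y := fun Y => Iff.rfl
  have hle : uNum ≤ #(range b) := by
    apply csInf_le'
    refine ⟨U, range b, ?_, ⟨?_, ?_⟩, rfl⟩
    · intro n hn
      obtain ⟨p, hp⟩ := (hU _).mp hn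
      obtain ⟨k, hk⟩ := hbne (p.1, max p.2 (n + 1))
      have hkp : k ∈ b p := ⟨(le_max_left _ _).trans hk.1, hk.2⟩
      have h1 : k = n := hp hkp
      have h2 : n + 1 ≤ k := (le_max_right _ _).trans hk.1
      omega
    · rintro _ ⟨p, rfl⟩
      exact (hU _).mpr ⟨p, Subset.rfl⟩
    · intro X hX
      obtain ⟨p, hp⟩ := (hU _).mp hX
      exact ⟨b p, mem_range_self p, hp⟩
  have hlt : #(range b) < dNum := by
    refine lt_of_le_of_lt mk_range_le ?_
    rw [mk_prod, lift_id, lift_id]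
    refine mul_lt_of_lt aleph0_lt_dNum.le hlist ?_
    rw [mk_nat]
    exact aleph0_lt_dNum
  exact absurd (hdu.trans hle) (not_le.mpr hlt)

/-- Sanity check: `𝔲` is the cardinality of an actual base of a nonprincipal ultrafilter. -/
theorem exists_base : ∃ (U : Ultrafilter ℕ) (B : Set (Set ℕ)),
    (∀ n : ℕ, ({n} : Set ℕ) ∉ U) ∧ IsBase U B ∧ #B = uNum := by
  have h : uNum ∈ {κ : Cardinal.{0} | ∃ (U : Ultrafilter ℕ) (B : Set (Set ℕ)),
      (∀ n : ℕ, ({n} : Set ℕ) ∉ U) ∧ IsBase U B ∧ #B = κ} := by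
    apply csInf_mem
    refine ⟨#{X : Set ℕ | X ∈ hyperfilter ℕ}, hyperfilter ℕ, {X : Set ℕ | X ∈ hyperfilter ℕ},
      ?_, ⟨fun b hb => hb, fun X hX => ⟨X, hX, Subset.rfl⟩⟩, rfl⟩
    intro n
    exact (finite_singleton n).notMem_hyperfilter
  exact h

/-- **Main theorem.** If `𝔡 ≤ 𝔲` then the strong polarized relation at `𝔡` fails. The proof:
by `exists_splitting` (Aubrey's argument for `min(𝔡, 𝔲) ≤ 𝔯`) fewer than `𝔡` infinite sets are
split by a single set. Enumerate a dominating family `f b` (`b < 𝔡`). For `a < 𝔡` choose an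
interval partition `j a` such that, for every `b < a`, infinitely many of its intervals contain
an interval `[m, f b m)`, and a set `X a` of indices splitting the corresponding sets of indices.
The union of the intervals with index in `X a` splits every infinite set which meets almost all
intervals `[m, f b m)`, `b < a`; and every infinite set is of that kind for some `b < 𝔡`. -/
theorem result (h : dNum ≤ uNum) : ¬ StrongPolarized dNum := by
  intro hpol
  obtain ⟨F, hF, hcard⟩ := exists_dominating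
  have hmk : #dNum.ord.ToType = dNum := mk_ord_toType dNum
  have hIio : ∀ a : dNum.ord.ToType, #(Iio a) < dNum := by
    intro a
    have := mk_Iio_lt a (by simp)
    rwa [hmk] at this
  obtain ⟨e⟩ : Nonempty (dNum.ord.ToType ≃ F) := by
    rw [← Cardinal.eq, hmk, hcard]
  -- the dominating family, made monotone
  let f : dNum.ord.ToType → ℕ → ℕ :=
    fun a n => n + 1 + ∑ i ∈ Finset.range (n + 1), (e a : ℕ → ℕ) i
  have hmono : ∀ a, Monotone (f a) := by
    intro a x y hxy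
    have : ∑ i ∈ Finset.range (x + 1), (e a : ℕ → ℕ) i ≤
        ∑ i ∈ Finset.range (y + 1), (e a : ℕ → ℕ) i :=
      Finset.sum_le_sum_of_subset (Finset.range_mono (by omega))
    simp only [f]
    omega
  have hfe : ∀ a n, (e a : ℕ → ℕ) n < f a n := by
    intro a n
    have : (e a : ℕ → ℕ) n ≤ ∑ i ∈ Finset.range (n + 1), (e a : ℕ → ℕ) i :=
      Finset.single_le_sum (f := (e a : ℕ → ℕ)) (fun _ _ => Nat.zero_le _)
        (Finset.mem_range.mpr (by omega))
    simp only [f]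
    omega
  -- the interval partitions
  have hpart : ∀ a : dNum.ord.ToType, ∃ j : ℕ → ℕ, StrictMono j ∧ j 0 = 0 ∧
      ∀ b : Iio a, {k | ∃ m, j k ≤ m ∧ f b m ≤ j (k + 1)}.Infinite := fun a =>
    exists_partition (hIio a) (fun b : Iio a => f b) (fun b => hmono b)
  choose j hj _hj0 hjinf using hpart
  have hsplit : ∀ a : dNum.ord.ToType, ∃ X : Set ℕ, ∀ b : Iio a,
      ({k | ∃ m, j a k ≤ m ∧ f b m ≤ j a (k + 1)} ∩ X).Infinite ∧
      ({k | ∃ m, j a k ≤ m ∧ f b m ≤ j a (k + 1)} \ X).Infinite := fun a =>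
    exists_splitting h (hIio a)
      (fun b : Iio a => {k | ∃ m, j a k ≤ m ∧ f b m ≤ j a (k + 1)}) (fun b => hjinf a b)
  choose X hX using hsplit
  classical
  obtain ⟨A, B, i, hA, hB, hAB⟩ := hpol fun a n => if idx (j a) n ∈ X a then 1 else 0
  -- `B` is `f b`-thick for some `b`
  obtain ⟨f', hf'F, hf'⟩ := hF (nxt B)
  obtain ⟨N, hN⟩ := eventually_atTop.mp hf'
  obtain ⟨b, hb⟩ : ∃ b, (e b : ℕ → ℕ) = f' := ⟨e.symm ⟨f', hf'F⟩, by simp⟩
  have hthick : ∀ n, N ≤ n → nxt B n < f b n := by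
    intro n hn
    refine lt_of_le_of_lt (hN n hn) ?_
    rw [← hb]
    exact hfe b n
  -- some member of `A` is above `b`
  obtain ⟨a, haA, hba⟩ : ∃ a ∈ A, b < a := by
    by_contra hcon
    push Not at hcon
    have hsub : A ⊆ insert b (Iio b) := by
      intro a ha
      rcases (hcon a ha).lt_or_eq with h1 | h1
      · exact mem_insert_of_mem _ h1
      · rw [h1]
        exact mem_insert _ _
    have h1 : #A ≤ #(Iio b) + 1 := (mk_le_mk_of_subset hsub).trans (mk_insert_le)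
    have h2 : #(Iio b) + 1 < dNum :=
      add_lt_of_lt aleph0_lt_dNum.le (hIio b) (one_lt_aleph0.trans aleph0_lt_dNum)
    rw [hA] at h1
    exact absurd h1 (not_le.mpr h2)
  have key : ∀ k, N ≤ k → (∃ m, j a k ≤ m ∧ f b m ≤ j a (k + 1)) →
      ∃ n ∈ B, idx (j a) n = k := by
    rintro k hk ⟨m, hm1, hm2⟩
    have hNm : N ≤ m := hk.trans (((hj a).le_apply (x := k)).trans hm1)
    refine ⟨nxt B m, (nxt_spec hB m).1, idx_eq (hj a) (hm1.trans (nxt_spec hB m).2) ?_⟩
    exact lt_of_lt_of_le (hthick m hNm) hm2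
  obtain ⟨hinf1, hinf2⟩ := hX a ⟨b, hba⟩
  obtain ⟨k1, ⟨hk1, hk1X⟩, hk1N⟩ := hinf1.exists_gt N
  obtain ⟨k2, ⟨hk2, hk2X⟩, hk2N⟩ := hinf2.exists_gt N
  obtain ⟨n1, hn1, hidx1⟩ := key k1 hk1N.le hk1
  obtain ⟨n2, hn2, hidx2⟩ := key k2 hk2N.le hk2
  have e1 := hAB a haA n1 hn1
  have e2 := hAB a haA n2 hn2
  simp only [hidx1, hidx2, hk1X, hk2X, if_true, if_false] at e1 e2
  rw [← e2] at e1
  exact absurd e1 (by decide)

end Pool.Agent.Results.MP_2712b7_lc.PolarizedAtD
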